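import Pool.Agent.BSE.Stmts

/-!
# BSE, row SC1: the core Schur identity on `U_B`
-/

open MeasureTheory Matrix Finset
open scoped ComplexConjugate

namespace Pool.Agent.BSE.H25

open Pool.Agent.Helper64_FR

variable {n : ℕ}

theorem twist (B : Finset (Fin n)) (c a b : Fin n → ℂ) (ζ : ℂ) (h : ζ * conj ζ = 1) :
    ζ * ∑ i ∈ B, c i * conj (a i + ζ * b i) * (a i + ζ * b i) =
      ∑ i ∈ B, c i * conj (b i) * a i +
      (∑ i ∈ B, c i * (conj (a i) * a i + conj (b i) * b i)) * ζ +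
      (∑ i ∈ B, c i * conj (a i) * b i) * ζ ^ 2 := by
  rw [Finset.mul_sum, Finset.sum_mul, Finset.sum_mul, ← Finset.sum_add_distrib,
    ← Finset.sum_add_distrib]
  refine Finset.sum_congr rfl fun i _ => ?_
  rw [map_add, map_mul]
  linear_combination (c i * conj (b i) * (a i + ζ * b i)) * h

/-- the integrand -/
noncomputable def Pf (B : Finset (Fin n)) (c : Fin n → ℝ) (u v : Fin n → ℂ) (A : UB B) : ℂ :=
  ∑ i ∈ B, (c i : ℂ) * conj ((((A : UU n) : Matrix (Fin n) (Fin n) ℂ) *ᵥ v) i) *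
    (((A : UU n) : Matrix (Fin n) (Fin n) ℂ) *ᵥ u) i

theorem cont_ent (B : Finset (Fin n)) (i j : Fin n) :
    Continuous fun A : UB B => ((A : UU n) : Matrix (Fin n) (Fin n) ℂ) i j := by
  have h1 : Continuous fun A : UU n => (A : Matrix (Fin n) (Fin n) ℂ) i j :=
    (continuous_apply_apply i j).comp continuous_subtype_val
  exact h1.comp continuous_subtype_val

theorem cont_mv (B : Finset (Fin n)) (u : Fin n → ℂ) (i : Fin n) :
    Continuous fun A : UB B => (((A : UU n) : Matrix (Fin n) (Fin n) ℂ) *ᵥ u) i := by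
  simp only [Matrix.mulVec, dotProduct]
  exact continuous_finsetSum _ fun j _ => (cont_ent B i j).mul continuous_const

theorem Pf_cont (B : Finset (Fin n)) (c : Fin n → ℝ) (u v : Fin n → ℂ) :
    Continuous (Pf B c u v) := by
  unfold Pf
  exact continuous_finsetSum _ fun i _ =>
    (continuous_const.mul (Complex.continuous_conj.comp (cont_mv B v i))).mul (cont_mv B u i)

theorem mv_eq {B : Finset (Fin n)} (A : UB B) (u : Fin n → ℂ) {i : Fin n} (hi : i ∈ B) :
    (((A : UU n) : Matrix (Fin n) (Fin n) ℂ) *ᵥ u) i =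
      ∑ j ∈ B, ((A : UU n) : Matrix (Fin n) (Fin n) ℂ) i j * u j := by
  simp only [Matrix.mulVec, dotProduct]
  symm
  refine Finset.sum_subset (Finset.subset_univ B) fun j _ hj => ?_
  have h := A.2 i j (Or.inr hj)
  have h2 : i ≠ j := fun e => hj (e ▸ hi)
  rw [if_neg h2] at h
  rw [h, zero_mul]

theorem diag (trn : TRNStmt) (inv : INVStmt) (B : Finset (Fin n)) {b : Fin n} (hb : b ∈ B)
    (m : ℕ) (u : Fin n → ℂ) (c : Fin n → ℝ) :
    ∫ A : UB B, Pf B c u u A ^ m ∂(haarB B) = (((∑ i ∈ B, ‖u i‖ ^ 2 : ℝ)) : ℂ) ^ m *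
      ∫ A : UB B, ((∑ j ∈ B, ‖((A : UU n) : Matrix (Fin n) (Fin n) ℂ) j b‖ ^ 2 * c j : ℝ) : ℂ) ^ m
        ∂(haarB B) := by
  have := (inv n B).1
  set r2 : ℝ := ∑ i ∈ B, ‖u i‖ ^ 2 with hr2
  have hr0 : 0 ≤ r2 := Finset.sum_nonneg fun i _ => sq_nonneg _
  rcases eq_or_lt_of_le hr0 with h0 | h0
  · have hu : ∀ i ∈ B, u i = 0 := by
      intro i hi
      have h1 := (Finset.sum_eq_zero_iff_of_nonneg fun i _ => sq_nonneg ‖u i‖).1 h0.symm i hi
      exact norm_eq_zero.1 (pow_eq_zero_iff two_ne_zero |>.1 h1)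
    have hP : ∀ A : UB B, Pf B c u u A = 0 := by
      intro A
      unfold Pf
      refine Finset.sum_eq_zero fun i hi => ?_
      have h2 : (((A : UU n) : Matrix (Fin n) (Fin n) ℂ) *ᵥ u) i = 0 := by
        rw [mv_eq A u hi]
        exact Finset.sum_eq_zero fun j hj => by rw [hu j hj, mul_zero]
      rw [h2, mul_zero]
    simp_rw [hP]
    rw [← h0]
    rcases Nat.eq_zero_or_pos m with hm | hm
    · subst hm
      simp
    · simp [hm.ne']
  · set r : ℝ := Real.sqrt r2 with hr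
    have hrp : 0 < r := Real.sqrt_pos.2 h0
    have hrr : r * r = r2 := Real.mul_self_sqrt hr0
    have hrc : (r : ℂ) ≠ 0 := by exact_mod_cast hrp.ne'
    obtain ⟨A0, hA0, hA0b⟩ := trn n B b hb (fun i => if i ∈ B then u i / r else 0)
      (fun i hi => by simp [hi]) (by
        have h1 : ∀ i, ‖(if i ∈ B then u i / (r : ℂ) else 0)‖ ^ 2 =
            if i ∈ B then ‖u i‖ ^ 2 / r2 else 0 := by
          intro i
          split_ifs with h
          · rw [norm_div, Complex.norm_real, Real.norm_of_nonneg hrp.le, div_pow, sq r, hrr]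
          · simp
        simp_rw [h1]
        rw [← Finset.sum_filter, Finset.filter_univ_mem, ← Finset.sum_div]
        exact div_self h0.ne')
    have hkey : ∀ A : UB B, Pf B c u u A = (r2 : ℂ) *
        ((∑ j ∈ B, ‖((((A * ⟨A0, hA0⟩ : UB B)) : UU n) : Matrix (Fin n) (Fin n) ℂ) j b‖ ^ 2 *
          c j : ℝ) : ℂ) := by
      intro A
      unfold Pf
      push_cast
      rw [Finset.mul_sum]
      refine Finset.sum_congr rfl fun i hi => ?_
      have h2 : (((A : UU n) : Matrix (Fin n) (Fin n) ℂ) *ᵥ u) i =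
          r * ((((A * ⟨A0, hA0⟩ : UB B)) : UU n) : Matrix (Fin n) (Fin n) ℂ) i b := by
        have h3 : ((((A * ⟨A0, hA0⟩ : UB B)) : UU n) : Matrix (Fin n) (Fin n) ℂ) i b =
            ∑ j, ((A : UU n) : Matrix (Fin n) (Fin n) ℂ) i j *
              (A0 : Matrix (Fin n) (Fin n) ℂ) j b := rfl
        rw [h3, mv_eq A u hi, Finset.mul_sum]
        have h4 : ∀ j, (r : ℂ) * (((A : UU n) : Matrix (Fin n) (Fin n) ℂ) i j *
            (A0 : Matrix (Fin n) (Fin n) ℂ) j b) =
            if j ∈ B then ((A : UU n) : Matrix (Fin n) (Fin n) ℂ) i j * u j else 0 := by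
          intro j
          rw [hA0b]
          split_ifs with h
          · field_simp
          · simp
        simp_rw [h4]
        rw [← Finset.sum_filter, Finset.filter_univ_mem]
      rw [h2, map_mul, Complex.conj_ofReal]
      have h5 := Complex.conj_mul'
        (((((A * ⟨A0, hA0⟩ : UB B)) : UU n) : Matrix (Fin n) (Fin n) ℂ) i b)
      have h6 : (r : ℂ) * r = (r2 : ℂ) := by exact_mod_cast hrr
      linear_combination (c i : ℂ) * (r : ℂ) * (r : ℂ) * h5 +
        (c i : ℂ) * ((‖(((((A * ⟨A0, hA0⟩ : UB B)) : UU n) : Matrix (Fin n) (Fin n) ℂ) i b)‖ :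
          ℂ)) ^ 2 * h6
    simp_rw [hkey, mul_pow]
    rw [integral_const_mul]
    congr 1
    exact ((inv n B).2 (fun A : UB B =>
      ((∑ j ∈ B, ‖((A : UU n) : Matrix (Fin n) (Fin n) ℂ) j b‖ ^ 2 * c j : ℝ) : ℂ) ^ m)).2.1
      ⟨A0, hA0⟩

theorem sc1 (rou : ROUStmt) (trn : TRNStmt) (inv : INVStmt) : SC1Stmt := by
  intro n B b hb m u v c
  have := (inv n B).1
  set K : ℂ := ∫ A : UB B,
    ((∑ j ∈ B, ‖((A : UU n) : Matrix (Fin n) (Fin n) ℂ) j b‖ ^ 2 * c j : ℝ) : ℂ) ^ m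
      ∂(haarB B) with hK
  change ∫ A : UB B, Pf B c u v A ^ m ∂(haarB B) = (∑ i ∈ B, conj (v i) * u i) ^ m * K
  have h2m : 2 * m + 1 ≠ 0 := by omega
  set z : ℂ := Complex.exp (2 * Real.pi * Complex.I / ((2 * m + 1 : ℕ) : ℂ)) with hz
  have hprim : IsPrimitiveRoot z (2 * m + 1) := Complex.isPrimitiveRoot_exp _ h2m
  have hnorm : ∀ t : ℕ, z ^ t * conj (z ^ t) = 1 := by
    intro t
    have h1 : ‖z ^ t‖ = 1 := by
      rw [norm_pow, hprim.norm'_eq_one h2m, one_pow]
    rw [Complex.mul_conj', h1]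
    simp
  -- the integral side
  have hP : ∀ (t : ℕ) (A : UB B), z ^ t * Pf B c (fun i => u i + z ^ t * v i)
      (fun i => u i + z ^ t * v i) A = Pf B c u v A +
      (∑ i ∈ B, (c i : ℂ) * (conj ((((A : UU n) : Matrix (Fin n) (Fin n) ℂ) *ᵥ u) i) *
        (((A : UU n) : Matrix (Fin n) (Fin n) ℂ) *ᵥ u) i +
        conj ((((A : UU n) : Matrix (Fin n) (Fin n) ℂ) *ᵥ v) i) *
        (((A : UU n) : Matrix (Fin n) (Fin n) ℂ) *ᵥ v) i)) * z ^ t +
      (∑ i ∈ B, (c i : ℂ) * conj ((((A : UU n) : Matrix (Fin n) (Fin n) ℂ) *ᵥ u) i) *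
        (((A : UU n) : Matrix (Fin n) (Fin n) ℂ) *ᵥ v) i) * z ^ (2 * t) := by
    intro t A
    have h1 : ∀ i, (((A : UU n) : Matrix (Fin n) (Fin n) ℂ) *ᵥ fun i => u i + z ^ t * v i) i =
        (((A : UU n) : Matrix (Fin n) (Fin n) ℂ) *ᵥ u) i +
          z ^ t * (((A : UU n) : Matrix (Fin n) (Fin n) ℂ) *ᵥ v) i := by
      intro i
      simp only [Matrix.mulVec, dotProduct]
      rw [Finset.mul_sum, ← Finset.sum_add_distrib]
      exact Finset.sum_congr rfl fun j _ => by ring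
    have h2 := twist B (fun i => (c i : ℂ))
      (fun i => (((A : UU n) : Matrix (Fin n) (Fin n) ℂ) *ᵥ u) i)
      (fun i => (((A : UU n) : Matrix (Fin n) (Fin n) ℂ) *ᵥ v) i) (z ^ t) (hnorm t)
    have h3 : z ^ (2 * t) = (z ^ t) ^ 2 := by rw [← pow_mul, mul_comm]
    rw [h3]
    unfold Pf
    simp_rw [h1]
    exact h2
  have hint : ∀ u' v' : Fin n → ℂ, Integrable (fun A : UB B => Pf B c u' v' A ^ m) (haarB B) :=
    fun u' v' => ((Pf_cont B c u' v').pow m).integrable_of_hasCompactSupport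
      (HasCompactSupport.of_compactSpace _)
  have hL : ∑ t ∈ range (2 * m + 1), (z ^ t) ^ m * ∫ A : UB B,
      Pf B c (fun i => u i + z ^ t * v i) (fun i => u i + z ^ t * v i) A ^ m ∂(haarB B) =
      (2 * m + 1) * ∫ A : UB B, Pf B c u v A ^ m ∂(haarB B) := by
    calc ∑ t ∈ range (2 * m + 1), (z ^ t) ^ m * ∫ A : UB B,
          Pf B c (fun i => u i + z ^ t * v i) (fun i => u i + z ^ t * v i) A ^ m ∂(haarB B)
        = ∑ t ∈ range (2 * m + 1), ∫ A : UB B, (z ^ t) ^ m *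
          Pf B c (fun i => u i + z ^ t * v i) (fun i => u i + z ^ t * v i) A ^ m ∂(haarB B) :=
          Finset.sum_congr rfl fun t _ => (integral_const_mul _ _).symm
      _ = ∫ A : UB B, ∑ t ∈ range (2 * m + 1), (z ^ t) ^ m *
          Pf B c (fun i => u i + z ^ t * v i) (fun i => u i + z ^ t * v i) A ^ m ∂(haarB B) :=
          (integral_finsetSum _ fun t _ => (hint _ _).const_mul _).symm
      _ = ∫ A : UB B, (2 * m + 1) * Pf B c u v A ^ m ∂(haarB B) := by
          congr 1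
          funext A
          rw [← rou m (Pf B c u v A) _ _ z hprim]
          refine Finset.sum_congr rfl fun t _ => ?_
          rw [← mul_pow, hP t A]
      _ = (2 * m + 1) * ∫ A : UB B, Pf B c u v A ^ m ∂(haarB B) := integral_const_mul _ _
  have hR : ∑ t ∈ range (2 * m + 1), (z ^ t) ^ m * ∫ A : UB B,
      Pf B c (fun i => u i + z ^ t * v i) (fun i => u i + z ^ t * v i) A ^ m ∂(haarB B) =
      (2 * m + 1) * ((∑ i ∈ B, conj (v i) * u i) ^ m * K) := by
    have h1 : ∀ t ∈ range (2 * m + 1), (z ^ t) ^ m * ∫ A : UB B,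
        Pf B c (fun i => u i + z ^ t * v i) (fun i => u i + z ^ t * v i) A ^ m ∂(haarB B) =
        ((∑ i ∈ B, conj (v i) * u i) +
          (∑ i ∈ B, (conj (u i) * u i + conj (v i) * v i)) * z ^ t +
          (∑ i ∈ B, conj (u i) * v i) * z ^ (2 * t)) ^ m * K := by
      intro t _
      rw [diag trn inv B hb m, ← mul_assoc, ← mul_pow]
      congr 2
      have h2 := twist B (fun _ => (1 : ℂ)) u v (z ^ t) (hnorm t)
      have h3 : z ^ (2 * t) = (z ^ t) ^ 2 := by rw [← pow_mul, mul_comm]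
      rw [h3]
      simp only [one_mul] at h2
      rw [← h2]
      congr 1
      push_cast
      exact Finset.sum_congr rfl fun i _ => (Complex.conj_mul' _).symm
    rw [Finset.sum_congr rfl h1, ← Finset.sum_mul, rou m _ _ _ z hprim]
    ring
  have h3 : (2 * (m : ℂ) + 1) ≠ 0 := by exact_mod_cast h2m
  exact mul_left_cancel₀ h3 (hL.symm.trans hR)

end Pool.Agent.BSE.H25
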